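import Pool.Agent.Helper89.Cyl.Part3

/-!
# Fractional interval partition, part 4: positivity, support, and the theorem `exists_weights`
-/

set_option autoImplicit false
set_option linter.unusedSectionVars false

open scoped BigOperators ComplexConjugate

namespace Pool.Agent.Helper89.Cyl

noncomputable section

section abs

variable {P X : Type*} [CommGroup P] [Fintype P] [DecidableEq P] [Fintype X]
  (C : CharSys P X)

/-- permutations supported in `Y` -/
def HY (Y : Finset P) : Finset (Equiv.Perm P) := Finset.univ.filter (fun σ => ∀ x, x ∉ Y → σ x = x)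

theorem mem_HY {Y : Finset P} {σ : Equiv.Perm P} : σ ∈ HY Y ↔ ∀ x, x ∉ Y → σ x = x := by
  simp [HY]

theorem HY_mem {Y : Finset P} {σ : Equiv.Perm P} (hσ : σ ∈ HY Y) (x : P) : σ x ∈ Y ↔ x ∈ Y := by
  rw [mem_HY] at hσ
  constructor
  · intro h
    by_contra hx
    rw [hσ x hx] at h
    exact hx h
  · intro h
    by_contra hx
    have := hσ _ hx
    rw [σ.injective this] at hx
    exact hx h

theorem one_mem_HY (Y : Finset P) : 1 ∈ HY Y := by
  rw [mem_HY]
  intro x _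
  rfl

theorem M_comp {Y : Finset P} {σ : Equiv.Perm P} (hσ : σ ∈ HY Y) (χ : P → X) :
    M C Y (χ ∘ σ) = (M C Y χ).submatrix σ id := by
  ext x y
  rw [Matrix.submatrix_apply, id]
  by_cases hx : x ∈ Y
  · rw [M_mem C _ hx, M_mem C _ ((HY_mem hσ x).mpr hx)]
    rfl
  · rw [M_notMem C _ hx, mem_HY.mp hσ x hx, M_notMem C _ hx]

theorem D_comp {Y : Finset P} {σ : Equiv.Perm P} (hσ : σ ∈ HY Y) (χ : P → X) :
    D C Y (χ ∘ σ) = (Equiv.Perm.sign σ : ℤ) * D C Y χ := by
  unfold D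
  rw [M_comp C hσ, Matrix.det_permute]

theorem sum_W_comp (Y : Finset P) (χ : P → X) :
    ∑ σ ∈ HY Y, W C Y (χ ∘ σ) = ((‖D C Y χ‖ ^ 2 : ℝ) : ℂ) := by
  classical
  have h1 : D C Y χ = ∑ σ ∈ HY Y, ((Equiv.Perm.sign σ : ℤ) : ℂ) *
      ∏ y ∈ Y, C.ev (χ (σ y)) y := by
    unfold D
    rw [Matrix.det_apply']
    rw [← Finset.sum_subset (Finset.subset_univ (HY Y))]
    · refine Finset.sum_congr rfl fun σ hσ => ?_
      congr 1
      rw [← Finset.prod_subset (Finset.subset_univ Y)]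
      · refine Finset.prod_congr rfl fun y hy => ?_
        rw [M_mem C _ ((HY_mem hσ y).mpr hy)]
      · intro x _ hx
        rw [mem_HY.mp hσ x hx, M_notMem C _ hx, Pi.single_apply, if_pos rfl]
    · intro σ _ hσ
      rw [mem_HY] at hσ
      push Not at hσ
      obtain ⟨z, hz, hne⟩ := hσ
      have h2 : ∏ x, M C Y χ (σ x) x = 0 := by
        apply Finset.prod_eq_zero (Finset.mem_univ (σ.symm z))
        rw [Equiv.apply_symm_apply, M_notMem C _ hz, Pi.single_apply, if_neg]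
        intro h
        apply hne
        rw [← h, Equiv.apply_symm_apply]
        exact h.symm
      rw [h2, mul_zero]
  have h2 : ∀ σ ∈ HY Y, W C Y (χ ∘ σ) = D C Y χ * conj (((Equiv.Perm.sign σ : ℤ) : ℂ) *
      ∏ y ∈ Y, C.ev (χ (σ y)) y) := by
    intro σ hσ
    unfold W
    rw [D_comp C hσ, map_mul, map_prod]
    have : conj (((Equiv.Perm.sign σ : ℤ) : ℂ)) = ((Equiv.Perm.sign σ : ℤ) : ℂ) := by simp
    rw [this]
    simp only [Function.comp_apply]
    ring
  rw [Finset.sum_congr rfl h2, ← Finset.mul_sum, ← map_sum, ← h1, Complex.mul_conj,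
    Complex.normSq_eq_norm_sq]

theorem T_comp {Q : Subgroup P} {F Y : Finset P} {σ : Equiv.Perm P} (hσ : ∀ x, σ x ∈ Y ↔ x ∈ Y)
    {χ : P → X} (h : T C Q F Y χ) : T C Q F Y (χ ∘ σ) := by
  intro v hv
  obtain ⟨a, ha1, ha2⟩ := h v hv
  refine ⟨a ∘ σ, ?_, ?_⟩
  · intro y hy
    obtain ⟨h1, h2⟩ := ha1 (σ y) hy
    exact ⟨(hσ y).mp h1, h2⟩
  · intro f hf
    rw [← ha2 f hf]
    exact Equiv.sum_comp σ (fun y => a y * C.ev (χ y) f)

theorem T_comp_iff {Q : Subgroup P} {F Y : Finset P} {σ : Equiv.Perm P}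
    (hσ : ∀ x, σ x ∈ Y ↔ x ∈ Y) {χ : P → X} : T C Q F Y (χ ∘ σ) ↔ T C Q F Y χ := by
  constructor
  · intro h
    have h2 : ∀ x, σ.symm x ∈ Y ↔ x ∈ Y := by
      intro x
      rw [← hσ (σ.symm x), Equiv.apply_symm_apply]
    have h3 := T_comp C h2 h
    have h4 : (χ ∘ σ) ∘ σ.symm = χ := by
      funext x
      simp
    rwa [h4] at h3
  · exact T_comp C hσ

theorem Top_comp_iff {Q : Subgroup P} {F Y : Finset P} {σ : Equiv.Perm P}
    (hσ : ∀ x, σ x ∈ Y ↔ x ∈ Y) {χ : P → X} : Top C Q F Y (χ ∘ σ) ↔ Top C Q F Y χ := by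
  unfold Top
  simp only [T_comp_iff C hσ]

/-- the event -/
def Ev (Q : Subgroup P) (Y : Finset P) (χ : P → X) : Prop :=
  (∀ y ∈ Y, Ann C Q (χ y)) ∧ Top C Q Y Y χ

theorem Ev_comp_iff {Q : Subgroup P} {Y : Finset P} {σ : Equiv.Perm P}
    (hσ : ∀ x, σ x ∈ Y ↔ x ∈ Y) {χ : P → X} : Ev C Q Y (χ ∘ σ) ↔ Ev C Q Y χ := by
  unfold Ev
  rw [Top_comp_iff C hσ]
  have : (∀ y ∈ Y, Ann C Q ((χ ∘ σ) y)) ↔ ∀ y ∈ Y, Ann C Q (χ y) := by
    constructor
    · intro h y hy
      have h1 : σ.symm y ∈ Y := by rwa [← hσ (σ.symm y), Equiv.apply_symm_apply]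
      have h2 := h _ h1
      rwa [Function.comp_apply, Equiv.apply_symm_apply] at h2
    · intro h y hy
      exact h _ ((hσ y).mpr hy)
  rw [this]

open Classical in
/-- the coefficients, real form -/
def cr (Q : Subgroup P) (Y : Finset P) : ℝ :=
  (∑ χ : P → X, if Ev C Q Y χ then ‖D C Y χ‖ ^ 2 else 0) / (HY Y).card

theorem cr_nonneg (Q : Subgroup P) (Y : Finset P) : 0 ≤ cr C Q Y := by
  classical
  unfold cr
  apply div_nonneg _ (Nat.cast_nonneg _)
  apply Finset.sum_nonneg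
  intro χ _
  split_ifs
  · positivity
  · exact le_rfl

theorem cc_eq (Q : Subgroup P) (Y : Finset P) : cc C Q Y = (cr C Q Y : ℂ) := by
  classical
  have hH : ((HY Y).card : ℂ) ≠ 0 := by
    have : 0 < (HY Y).card := Finset.card_pos.mpr ⟨1, one_mem_HY Y⟩
    exact_mod_cast this.ne'
  have h1 : ((HY Y).card : ℂ) * cc C Q Y = ∑ σ ∈ HY Y, ∑ χ : P → X,
      if Ev C Q Y (χ ∘ σ) then W C Y (χ ∘ σ) else 0 := by
    have h2 : ∀ σ ∈ HY Y, (∑ χ : P → X, if Ev C Q Y (χ ∘ σ) then W C Y (χ ∘ σ) else 0)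
        = cc C Q Y := by
      intro σ _
      have e0 : ∀ χ : P → X, (Equiv.arrowCongr σ.symm (Equiv.refl X)) χ = χ ∘ σ := fun χ => rfl
      have e1 := Fintype.sum_equiv (Equiv.arrowCongr σ.symm (Equiv.refl X))
        (fun χ : P → X => if Ev C Q Y (χ ∘ σ) then W C Y (χ ∘ σ) else 0)
        (fun χ : P → X => if Ev C Q Y χ then W C Y χ else 0) (fun χ => by rw [e0])
      rw [e1]
      unfold cc
      refine Finset.sum_congr rfl fun χ _ => ?_
      by_cases hE : Ev C Q Y χ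
      · rw [if_pos hE, if_pos (show (∀ y ∈ Y, Ann C Q (χ y)) ∧ Top C Q Y Y χ from hE)]
      · rw [if_neg hE, if_neg (show ¬ ((∀ y ∈ Y, Ann C Q (χ y)) ∧ Top C Q Y Y χ) from hE)]
    rw [Finset.sum_congr rfl h2, Finset.sum_const, nsmul_eq_mul]
  have h3 : ((HY Y).card : ℂ) * cc C Q Y
      = ((∑ χ : P → X, if Ev C Q Y χ then ‖D C Y χ‖ ^ 2 else 0 : ℝ) : ℂ) := by
    rw [h1, Finset.sum_comm, Complex.ofReal_sum]
    refine Finset.sum_congr rfl fun χ _ => ?_
    have e1 : ∀ σ ∈ HY Y, (if Ev C Q Y (χ ∘ σ) then W C Y (χ ∘ σ) else 0)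
        = if Ev C Q Y χ then W C Y (χ ∘ σ) else 0 := by
      intro σ hσ
      simp only [Ev_comp_iff C (HY_mem hσ)]
    rw [Finset.sum_congr rfl e1]
    by_cases hE : Ev C Q Y χ
    · simp only [hE, if_true]
      exact sum_W_comp C Y χ
    · simp [hE]
  unfold cr
  rw [Complex.ofReal_div, ← h3]
  push_cast
  field_simp

theorem exists_of_cr {Q : Subgroup P} {Y : Finset P} (h : cr C Q Y ≠ 0) :
    ∃ χ : P → X, Ev C Q Y χ ∧ D C Y χ ≠ 0 := by
  classical
  by_contra hcon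
  push Not at hcon
  apply h
  unfold cr
  rw [Finset.sum_eq_zero, zero_div]
  intro χ _
  split_ifs with h1
  · rw [hcon χ h1]
    simp
  · rfl

theorem supp1 {Q : Subgroup P} {Y : Finset P} {χ : P → X} (h : Ev C Q Y χ) (hD : D C Y χ ≠ 0) :
    ∀ y ∈ Y, ∀ y' ∈ Y, ∀ q ∈ Q, q * y = y' → y = y' := by
  intro y hy y' hy' q hq hqy
  by_contra hne
  apply hD
  unfold D
  apply Matrix.det_zero_of_column_eq hne
  intro x
  by_cases hx : x ∈ Y
  · rw [M_mem C _ hx, ← hqy, C.mul, h.1 x hx q hq, one_mul]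
  · rw [M_notMem C _ hx, Pi.single_apply, Pi.single_apply, if_neg, if_neg]
    · rintro rfl
      exact hx hy'
    · rintro rfl
      exact hx hy

theorem supp2 {Q : Subgroup P} {Y : Finset P} {χ : P → X} (h : Ev C Q Y χ) (hD : D C Y χ ≠ 0)
    (π : P) (hπ : ∀ y ∈ Y, ∃ q ∈ Q, ∃ y' ∈ Y, π * y = q * y') : π ∈ Q := by
  have hT : T C (Q ⊔ Subgroup.zpowers π) Y Y χ := by
    intro v hv
    have hvQ : Inv Q v := fun q hq x => hv q (Subgroup.mem_sup_left hq) x
    have hvπ : ∀ x, v (π * x) = v x :=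
      hv π (Subgroup.mem_sup_right (Subgroup.mem_zpowers π))
    obtain ⟨a, ha1, ha2⟩ := h.2.1 v hvQ
    have h0 : (fun y => a y * (C.ev (χ y) π - 1)) = 0 := by
      apply indep C hD
      · intro y hy
        apply (ha1 y _).1
        intro h0
        apply hy
        simp [h0]
      · intro f hf
        obtain ⟨q, hq, y', hy', hqy⟩ := hπ f hf
        have e1 : ∑ y, a y * C.ev (χ y) (π * f) = v f := by
          rw [← hvπ f, hqy, hvQ q hq, ← ha2 y' hy']
          refine Finset.sum_congr rfl fun z _ => ?_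
          by_cases hz : a z = 0
          · rw [hz, zero_mul, zero_mul]
          · rw [C.mul, (ha1 z hz).2 q hq, one_mul]
        have e2 := ha2 f hf
        rw [← sub_eq_zero.mpr (e1.trans e2.symm), ← Finset.sum_sub_distrib]
        refine Finset.sum_congr rfl fun z _ => ?_
        rw [C.mul]
        ring
    refine ⟨a, fun y hy => ⟨(ha1 y hy).1, ?_⟩, ha2⟩
    have h1 := congrFun h0 y
    simp only [Pi.zero_apply, mul_eq_zero, hy, false_or] at h1
    have h2 : C.ev (χ y) π = 1 := sub_eq_zero.mp h1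
    have h3 : ∀ n : ℕ, C.ev (χ y) (π ^ n) = 1 := by
      intro n
      induction n with
      | zero => rw [pow_zero]; exact C.one _
      | succ n ih => rw [pow_succ, C.mul, ih, h2, one_mul]
    intro q hq
    rw [Subgroup.mem_sup] at hq
    obtain ⟨s, hs, t, ht, rfl⟩ := hq
    rw [← mem_powers_iff_mem_zpowers] at ht
    obtain ⟨n, rfl⟩ := ht
    rw [C.mul, (ha1 y hy).2 s hs, one_mul]
    exact h3 n
  have hQ := h.2.2 _ le_sup_left hT
  rw [← hQ]
  exact Subgroup.mem_sup_right (Subgroup.mem_zpowers π)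

end abs

/-- the characters of a finite abelian group -/
def charSys (P : Type*) [CommGroup P] [Fintype P] [DecidableEq P] :
    CharSys P (AddChar (Additive P) ℂ) where
  ev ψ x := ψ (Additive.ofMul x)
  mul ψ a b := by
    rw [ofMul_mul, AddChar.map_add_eq_mul]
  one ψ := by
    rw [ofMul_one, AddChar.map_zero_eq_one]
  orth f x := by
    have h1 : ∀ ψ : AddChar (Additive P) ℂ, conj (ψ (Additive.ofMul f)) * ψ (Additive.ofMul x)
        = ψ (Additive.ofMul x - Additive.ofMul f) := by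
      intro ψ
      rw [sub_eq_add_neg, AddChar.map_add_eq_mul, AddChar.map_neg_eq_conj, mul_comm]
    rw [Finset.sum_congr rfl (fun ψ _ => h1 ψ), AddChar.sum_apply_eq_ite, AddChar.card_eq]
    have h2 : (Additive.ofMul x - Additive.ofMul f = 0) ↔ x = f := by
      rw [sub_eq_zero]
      exact Iff.rfl
    simp only [h2]

open Classical in
/-- **Fractional interval partition.**  `c Q Y ≥ 0`, supported on the pairs such that `Y` has at
most one point in each coset of `Q` and the stabiliser of `Q Y` is `Q`, with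
`∑ c Q Y = 1` over the pairs with `Y ⊆ F ⊆ Q Y`, for every nonempty `F`. -/
theorem exists_weights (P : Type*) [CommGroup P] [Fintype P] [DecidableEq P] :
    ∃ c : Subgroup P → Finset P → ℝ,
      (∀ Q Y, 0 ≤ c Q Y) ∧
      (∀ Q Y, c Q Y ≠ 0 → ∀ y ∈ Y, ∀ y' ∈ Y, ∀ q ∈ Q, q * y = y' → y = y') ∧
      (∀ Q Y, c Q Y ≠ 0 → ∀ π : P, (∀ y ∈ Y, ∃ q ∈ Q, ∃ y' ∈ Y, π * y = q * y') → π ∈ Q) ∧
      ∀ F : Finset P, F.Nonempty →
        ∑ᶠ Q : Subgroup P,
          ∑ Y ∈ F.powerset with (∀ x ∈ F, ∃ q ∈ Q, ∃ y ∈ Y, x = q * y), c Q Y = 1 := by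
  let C := charSys P
  set N : ℝ := ((Fintype.card (P → AddChar (Additive P) ℂ) : ℕ) : ℝ) with hN
  have hN0 : N ≠ 0 := by
    rw [hN]
    exact_mod_cast Fintype.card_ne_zero
  have hX : (Fintype.card (AddChar (Additive P) ℂ) : ℂ) ≠ 0 := by
    exact_mod_cast Fintype.card_ne_zero
  refine ⟨fun Q Y => cr C Q Y / N, ?_, ?_, ?_, ?_⟩
  · intro Q Y
    exact div_nonneg (cr_nonneg C Q Y) (Nat.cast_nonneg _)
  · intro Q Y h
    obtain ⟨χ, h1, h2⟩ := exists_of_cr C (Q := Q) (Y := Y) (fun h0 => h (by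
      show cr C Q Y / N = 0
      rw [h0, zero_div]))
    exact supp1 C h1 h2
  · intro Q Y h
    obtain ⟨χ, h1, h2⟩ := exists_of_cr C (Q := Q) (Y := Y) (fun h0 => h (by
      show cr C Q Y / N = 0
      rw [h0, zero_div]))
    exact supp2 C h1 h2
  · intro F _
    have h1 := main_identity C hX F
    rw [finsum_eq_sum_of_fintype]
    have h2 : ((∑ Q : Subgroup P, ∑ Y ∈ F.powerset with
        (∀ x ∈ F, ∃ q ∈ Q, ∃ y ∈ Y, x = q * y), cr C Q Y / N : ℝ) : ℂ) = 1 := by
      have h3 : ∀ Q : Subgroup P, ((∑ Y ∈ F.powerset with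
          (∀ x ∈ F, ∃ q ∈ Q, ∃ y ∈ Y, x = q * y), cr C Q Y / N : ℝ) : ℂ)
          = (∑ Y ∈ F.powerset with Hull Q F Y, cc C Q Y) / N := by
        intro Q
        rw [Complex.ofReal_sum, Finset.sum_div]
        refine Finset.sum_congr ?_ (fun Y _ => ?_)
        · ext Y
          simp only [Finset.mem_filter]
          rfl
        · rw [Complex.ofReal_div, cc_eq]
      rw [Complex.ofReal_sum, Finset.sum_congr rfl (fun Q _ => h3 Q), ← Finset.sum_div, h1, hN]
      have h4 : (Fintype.card (P → AddChar (Additive P) ℂ) : ℂ) ≠ 0 := by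
        exact_mod_cast Fintype.card_ne_zero
      push_cast
      exact div_self h4
    exact_mod_cast h2

end

end Pool.Agent.Helper89.Cyl
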