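import Mathlib

/-!
# Fractional interval partition of the subsets of a finite abelian group, part 1

(Project CY, MP_9fc8a5_nt.)  The determinantal model: `χ : P → X` a random function into the
(abstract) system `X` of characters of `P`, `M F χ` the matrix whose row `x` is the character
`χ x` for `x ∈ F` and the unit vector at `x` otherwise.
-/

set_option autoImplicit false
set_option linter.unusedSectionVars false

open scoped BigOperators ComplexConjugate

namespace Pool.Agent.Helper89.Cyl

noncomputable section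

/-- An abstract system of characters with the orthogonality relation. -/
structure CharSys (P X : Type*) [CommGroup P] [DecidableEq P] [Fintype X] where
  /-- evaluation -/
  ev : X → P → ℂ
  mul : ∀ ψ a b, ev ψ (a * b) = ev ψ a * ev ψ b
  one : ∀ ψ, ev ψ 1 = 1
  orth : ∀ f x, ∑ ψ, conj (ev ψ f) * ev ψ x = if x = f then (Fintype.card X : ℂ) else 0

variable {P X : Type*} [CommGroup P] [Fintype P] [DecidableEq P] [Fintype X]
  (C : CharSys P X)

/-- `ψ` is trivial on `Q`. -/
def Ann (Q : Subgroup P) (ψ : X) : Prop := ∀ q ∈ Q, C.ev ψ q = 1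

/-- `v` is invariant under `Q`. -/
def Inv (Q : Subgroup P) (v : P → ℂ) : Prop := ∀ q ∈ Q, ∀ x, v (q * x) = v x

/-- every `Q`-invariant function is on `F` a combination of those `χ y`, `y ∈ Y`, that are trivial
on `Q`. -/
def T (Q : Subgroup P) (F Y : Finset P) (χ : P → X) : Prop :=
  ∀ v : P → ℂ, Inv Q v → ∃ a : P → ℂ, (∀ y, a y ≠ 0 → y ∈ Y ∧ Ann C Q (χ y)) ∧
    ∀ f ∈ F, ∑ y, a y * C.ev (χ y) f = v f

/-- the matrix -/
def M (F : Finset P) (χ : P → X) : Matrix P P ℂ :=
  Matrix.of fun x => if x ∈ F then C.ev (χ x) else Pi.single x 1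

theorem M_mem {F : Finset P} (χ : P → X) {x : P} (hx : x ∈ F) : M C F χ x = C.ev (χ x) := by
  unfold M
  funext y
  simp [hx]

theorem M_notMem {F : Finset P} (χ : P → X) {x : P} (hx : x ∉ F) :
    M C F χ x = Pi.single x 1 := by
  unfold M
  funext y
  simp [hx]

/-- its determinant -/
def D (F : Finset P) (χ : P → X) : ℂ := (M C F χ).det

theorem D_empty (χ : P → X) : D C ∅ χ = 1 := by
  have : M C ∅ χ = 1 := by
    ext x y
    rw [M_notMem C χ (Finset.notMem_empty x), Matrix.one_apply, Pi.single_apply]
    simp only [eq_comm]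
  rw [D, this, Matrix.det_one]

/-- the row step -/
theorem row_step (F G : Finset P) (Y : Finset P) (hYG : Y ⊆ G) (hGF : G ⊆ F) (χ : P → X) (f : P)
    (hf : f ∉ G) (hfF : f ∈ F) (g : X → ℂ) (κ N : ℂ) (v : P → ℂ)
    (hr : ∀ x, ∑ ψ, g ψ * C.ev ψ x = (if x = f then N else 0) - κ * v x)
    (a : P → ℂ) (ha : ∀ y, a y ≠ 0 → y ∈ Y) (hav : ∀ x ∈ F, ∑ y, a y * C.ev (χ y) x = v x) :
    ∑ ψ, g ψ * D C (insert f G) (Function.update χ f ψ) = N * D C G χ := by
  classical
  have h1 : ∀ ψ, D C (insert f G) (Function.update χ f ψ) =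
      ((M C G χ).updateRow f (C.ev ψ)).det := by
    intro ψ
    unfold D
    congr 1
    ext x y
    by_cases hx : x = f
    · subst hx
      rw [M_mem C _ (Finset.mem_insert_self _ _), Matrix.updateRow_self, Function.update_self]
    · rw [Matrix.updateRow_ne hx]
      by_cases hxG : x ∈ G
      · rw [M_mem C _ (Finset.mem_insert_of_mem hxG), M_mem C _ hxG, Function.update_of_ne hx]
      · rw [M_notMem C _ (by simp [hx, hxG]), M_notMem C _ hxG]
  let L : (P → ℂ) →ₗ[ℂ] ℂ :=
    (Matrix.detRowAlternating (n := P) (R := ℂ)).toMultilinearMap.toLinearMap (M C G χ) f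
  have hL : ∀ r : P → ℂ, L r = ((M C G χ).updateRow f r).det := fun r => rfl
  have h2 : ∑ ψ, g ψ * D C (insert f G) (Function.update χ f ψ) = L (∑ ψ, g ψ • C.ev ψ) := by
    rw [map_sum]
    refine Finset.sum_congr rfl fun ψ _ => ?_
    rw [h1, map_smul, hL, smul_eq_mul]
  rw [h2, hL]
  let b : P → ℂ := fun x => if x ∈ F then 0 else v x - ∑ y, a y * C.ev (χ y) x
  let c : P → ℂ := fun k => (if k = f then N else 0) - κ * (a k + b k)
  have h3 : ∑ ψ, g ψ • C.ev ψ = ∑ k, c k • M C G χ k := by
    funext x
    rw [Finset.sum_apply, Finset.sum_apply]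
    simp only [Pi.smul_apply, smul_eq_mul]
    rw [hr x]
    have e1 : ∀ k, c k * M C G χ k x = (if k = f then N else 0) * M C G χ k x
        - κ * (a k * C.ev (χ k) x) - κ * (if k = x then b k else 0) := by
      intro k
      have ea : a k * M C G χ k x = a k * C.ev (χ k) x := by
        by_cases hk : a k = 0
        · rw [hk, zero_mul, zero_mul]
        · rw [M_mem C _ (hYG (ha k hk))]
      have eb : b k * M C G χ k x = if k = x then b k else 0 := by
        by_cases hk : k ∈ F
        · have : b k = 0 := by simp [b, hk]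
          rw [this, zero_mul]
          simp
        · rw [M_notMem C _ (fun h => hk (hGF h)), Pi.single_apply]
          by_cases hkx : x = k
          · subst hkx; simp
          · rw [if_neg hkx, if_neg (fun h => hkx h.symm), mul_zero]
      have : c k * M C G χ k x = (if k = f then N else 0) * M C G χ k x
        - κ * (a k * M C G χ k x) - κ * (b k * M C G χ k x) := by
        simp only [c]; ring
      rw [this, ea, eb]
    rw [Finset.sum_congr rfl (fun k _ => e1 k), Finset.sum_sub_distrib, Finset.sum_sub_distrib,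
      ← Finset.mul_sum, ← Finset.mul_sum]
    have e2 : ∑ k, (if k = f then N else 0) * M C G χ k x = if x = f then N else 0 := by
      rw [Finset.sum_eq_single f]
      · rw [if_pos rfl, M_notMem C _ hf, Pi.single_apply]
        by_cases h : x = f
        · simp [h]
        · simp [h]
      · intro k _ hk
        rw [if_neg hk, zero_mul]
      · intro h
        exact absurd (Finset.mem_univ f) h
    have e3 : ∑ k, (if k = x then b k else 0) = b x := by simp
    rw [e2, e3]
    by_cases hx : x ∈ F
    · rw [hav x hx]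
      have : b x = 0 := by simp [b, hx]
      rw [this]; ring
    · have : b x = v x - ∑ y, a y * C.ev (χ y) x := by simp [b, hx]
      rw [this]; ring
  rw [h3, Matrix.det_updateRow_sum]
  have hcf : c f = N := by
    have h4 : a f = 0 := by
      by_contra h
      exact hf (hYG (ha f h))
    have h5 : b f = 0 := by simp [b, hfF]
    simp [c, h4, h5]
  rw [hcf, smul_eq_mul]
  rfl

/-- averaging over one coordinate -/
theorem sum_update (f : P) (H : (P → X) → ℂ) [DecidableEq X] :
    ∑ χ : P → X, ∑ ψ : X, H (Function.update χ f ψ) = Fintype.card X * ∑ χ : P → X, H χ := by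
  classical
  have h1 : ∑ χ : P → X, ∑ ψ : X, H (Function.update χ f ψ)
      = ∑ p : (P → X) × X, H (Function.update p.1 f p.2) := by
    rw [Fintype.sum_prod_type]
  have h2 : ∑ p : (P → X) × X, H (Function.update p.1 f p.2) = ∑ p : (P → X) × X, H p.1 := by
    let Φ : (P → X) × X → (P → X) × X := fun p => (Function.update p.1 f p.2, p.1 f)
    have hΦ : Function.Involutive Φ := by
      rintro ⟨χ, ψ⟩
      simp [Φ]
    exact Fintype.sum_equiv hΦ.toPerm _ _ (fun p => rfl)
  rw [h1, h2, Fintype.sum_prod_type]
  simp [Finset.mul_sum]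

end

end Pool.Agent.Helper89.Cyl
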