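import Pool.Agent.Helper89.Cyl.Basic

/-!
# Fractional interval partition, part 2: integration, total mass, partition of unity
-/

set_option autoImplicit false
set_option linter.unusedSectionVars false

open scoped BigOperators ComplexConjugate

namespace Pool.Agent.Helper89.Cyl

noncomputable section

variable {P X : Type*} [CommGroup P] [Fintype P] [DecidableEq P] [Fintype X]
  (C : CharSys P X)

/-- indicator of the coset `Q f` -/
def coset (Q : Subgroup P) (f : P) : P → ℂ := fun x => by
  classical exact if ∃ q ∈ Q, x = q * f then 1 else 0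

theorem coset_inv (Q : Subgroup P) (f : P) : Inv Q (coset Q f) := by
  classical
  intro q hq x
  unfold coset
  have : (∃ q' ∈ Q, q * x = q' * f) ↔ ∃ q' ∈ Q, x = q' * f := by
    constructor
    · rintro ⟨q', hq', h⟩
      refine ⟨q⁻¹ * q', Q.mul_mem (Q.inv_mem hq) hq', ?_⟩
      rw [mul_assoc, ← h, inv_mul_cancel_left]
    · rintro ⟨q', hq', rfl⟩
      exact ⟨q * q', Q.mul_mem hq hq', by rw [mul_assoc]⟩
  simp only [this]

open Classical in
theorem sum_sub (Q : Subgroup P) (ψ : X) :
    ∑ q : Q, C.ev ψ q = if Ann C Q ψ then (Fintype.card Q : ℂ) else 0 := by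
  split_ifs with h
  · rw [Finset.sum_congr rfl (fun q _ => h q.1 q.2)]
    simp
  · unfold Ann at h
    push Not at h
    obtain ⟨q0, hq0, hne⟩ := h
    have h1 : ∑ q : Q, C.ev ψ q = C.ev ψ q0 * ∑ q : Q, C.ev ψ q := by
      rw [Finset.mul_sum]
      rw [← Fintype.sum_equiv (Equiv.mulLeft (⟨q0, hq0⟩ : Q)) (fun q : Q => C.ev ψ (q0 * q.1))
        (fun q : Q => C.ev ψ q) (fun q => rfl)]
      exact Finset.sum_congr rfl (fun q _ => C.mul _ _ _)
    have h2 : (C.ev ψ q0 - 1) * ∑ q : Q, C.ev ψ q = 0 := by
      rw [sub_mul, ← h1, one_mul, sub_self]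
    rcases mul_eq_zero.mp h2 with h3 | h3
    · exact absurd (sub_eq_zero.mp h3) hne
    · exact h3

open Classical in
/-- the weight of the coordinate `f` outside `Y` -/
def gw (Q : Subgroup P) (f : P) (ψ : X) : ℂ := if Ann C Q ψ then 0 else conj (C.ev ψ f)

open Classical in
theorem gw_sum (Q : Subgroup P) (f x : P) :
    ∑ ψ, gw C Q f ψ * C.ev ψ x = (if x = f then (Fintype.card X : ℂ) else 0)
      - (Fintype.card X : ℂ) / Fintype.card Q * coset Q f x := by
  have hQ : (Fintype.card Q : ℂ) ≠ 0 := by exact_mod_cast Fintype.card_ne_zero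
  have e1 : ∀ ψ, gw C Q f ψ * C.ev ψ x = conj (C.ev ψ f) * C.ev ψ x
      - (∑ q : Q, conj (C.ev ψ f) * C.ev ψ (q * x)) / Fintype.card Q := by
    intro ψ
    have : ∑ q : Q, conj (C.ev ψ f) * C.ev ψ (q * x)
        = conj (C.ev ψ f) * C.ev ψ x * ∑ q : Q, C.ev ψ q := by
      rw [Finset.mul_sum]
      exact Finset.sum_congr rfl (fun q _ => by rw [C.mul]; ring)
    rw [this, sum_sub, gw]
    split_ifs
    · field_simp
      ring
    · simp
  rw [Finset.sum_congr rfl (fun ψ _ => e1 ψ), Finset.sum_sub_distrib, C.orth, ← Finset.sum_div,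
    Finset.sum_comm]
  congr 1
  have e2 : ∀ q : Q, ∑ ψ, conj (C.ev ψ f) * C.ev ψ (q * x)
      = if (q : P) * x = f then (Fintype.card X : ℂ) else 0 := fun q => C.orth _ _
  rw [Finset.sum_congr rfl (fun q _ => e2 q)]
  unfold coset
  by_cases h : ∃ q ∈ Q, x = q * f
  · rw [if_pos h]
    obtain ⟨q, hq, rfl⟩ := h
    rw [Finset.sum_eq_single (⟨q⁻¹, Q.inv_mem hq⟩ : Q)]
    · rw [if_pos (by simp)]
      ring
    · intro b _ hb
      rw [if_neg]
      intro h
      apply hb
      apply Subtype.ext
      show (b : P) = q⁻¹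
      have h2 : (b : P) * q = 1 := by
        have : (b : P) * q * f = f := by rw [mul_assoc]; exact h
        simpa using this
      exact eq_inv_of_mul_eq_one_left h2
    · intro h
      exact absurd (Finset.mem_univ _) h
  · rw [if_neg h, mul_zero]
    rw [Finset.sum_eq_zero, zero_div]
    intro q _
    rw [if_neg]
    intro h'
    exact h ⟨(q : P)⁻¹, Q.inv_mem q.2, by rw [← h', inv_mul_cancel_left]⟩

/-- integration over the coordinates in `E` -/
theorem integ (Q : Subgroup P) (F Y : Finset P) (hYF : Y ⊆ F) (K : (P → X) → ℂ)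
    (hK1 : ∀ χ χ' : P → X, (∀ y ∈ Y, χ y = χ' y) → K χ = K χ')
    (hK2 : ∀ χ, K χ ≠ 0 → T C Q F Y χ) (hX : (Fintype.card X : ℂ) ≠ 0) (E : Finset P) :
    Disjoint E Y → E ⊆ F →
    ∑ χ : P → X, K χ * (∏ f ∈ E, gw C Q f (χ f)) * D C (Y ∪ E) χ
      = ∑ χ : P → X, K χ * D C Y χ := by
  classical
  induction E using Finset.induction_on with
  | empty =>
    intro _ _
    simp
  | insert f E hfE ih =>
    intro hd hF
    rw [Finset.disjoint_insert_left] at hd
    rw [Finset.insert_subset_iff] at hF
    rw [← ih hd.2 hF.2]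
    have h1 := sum_update (X := X) f (fun χ : P → X =>
      K χ * (∏ h ∈ insert f E, gw C Q h (χ h)) * D C (Y ∪ insert f E) χ)
    have h2 : ∀ χ : P → X, ∑ ψ : X, (fun χ : P → X =>
        K χ * (∏ h ∈ insert f E, gw C Q h (χ h)) * D C (Y ∪ insert f E) χ)
          (Function.update χ f ψ)
        = Fintype.card X * (K χ * (∏ h ∈ E, gw C Q h (χ h)) * D C (Y ∪ E) χ) := by
      intro χ
      have e1 : ∀ ψ : X, (fun χ : P → X =>
        K χ * (∏ h ∈ insert f E, gw C Q h (χ h)) * D C (Y ∪ insert f E) χ)
          (Function.update χ f ψ) = (K χ * (∏ h ∈ E, gw C Q h (χ h))) *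
            (gw C Q f ψ * D C (insert f (Y ∪ E)) (Function.update χ f ψ)) := by
        intro ψ
        have a1 : K (Function.update χ f ψ) = K χ := by
          apply hK1
          intro y hy
          rw [Function.update_of_ne]
          rintro rfl
          exact hd.1 hy
        have a2 : ∏ h ∈ insert f E, gw C Q h (Function.update χ f ψ h)
            = gw C Q f ψ * ∏ h ∈ E, gw C Q h (χ h) := by
          rw [Finset.prod_insert hfE, Function.update_self]
          congr 1
          refine Finset.prod_congr rfl fun h hh => ?_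
          rw [Function.update_of_ne]
          rintro rfl
          exact hfE hh
        show K (Function.update χ f ψ) * (∏ h ∈ insert f E, gw C Q h (Function.update χ f ψ h))
          * D C (Y ∪ insert f E) (Function.update χ f ψ) = _
        rw [a1, a2, Finset.union_insert]
        ring
      rw [Finset.sum_congr rfl (fun ψ _ => e1 ψ), ← Finset.mul_sum]
      by_cases hK : K χ = 0
      · rw [hK]; ring
      · obtain ⟨a, ha1, ha2⟩ := hK2 χ hK (coset Q f) (coset_inv Q f)
        rw [row_step C F (Y ∪ E) Y Finset.subset_union_left (Finset.union_subset hYF hF.2) χ f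
          (by rw [Finset.mem_union]; tauto) hF.1 (gw C Q f)
          ((Fintype.card X : ℂ) / Nat.card Q) (Fintype.card X) (coset Q f) ?_ a
          (fun y hy => (ha1 y hy).1) ha2]
        · ring
        · intro x
          rw [gw_sum, Nat.card_eq_fintype_card]
    rw [Finset.sum_congr rfl (fun χ _ => h2 χ), ← Finset.mul_sum] at h1
    exact (mul_left_cancel₀ hX h1).symm

/-- the weight -/
def W (F : Finset P) (χ : P → X) : ℂ := D C F χ * ∏ f ∈ F, conj (C.ev (χ f) f)

theorem total [DecidableEq X] (hX : (Fintype.card X : ℂ) ≠ 0) (F : Finset P) :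
    ∑ χ : P → X, W C F χ = Fintype.card (P → X) := by
  classical
  induction F using Finset.induction_on with
  | empty =>
    simp [W, D_empty]
  | insert f E hfE ih =>
    rw [← ih]
    have h1 := sum_update (X := X) f (fun χ : P → X => W C (insert f E) χ)
    have h2 : ∀ χ : P → X, ∑ ψ : X, (fun χ : P → X => W C (insert f E) χ)
          (Function.update χ f ψ) = Fintype.card X * W C E χ := by
      intro χ
      have e1 : ∀ ψ : X, (fun χ : P → X => W C (insert f E) χ)
          (Function.update χ f ψ) = (∏ h ∈ E, conj (C.ev (χ h) h)) *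
            (conj (C.ev ψ f) * D C (insert f E) (Function.update χ f ψ)) := by
        intro ψ
        have a2 : ∏ h ∈ insert f E, conj (C.ev (Function.update χ f ψ h) h)
            = conj (C.ev ψ f) * ∏ h ∈ E, conj (C.ev (χ h) h) := by
          rw [Finset.prod_insert hfE, Function.update_self]
          congr 1
          refine Finset.prod_congr rfl fun h hh => ?_
          rw [Function.update_of_ne]
          rintro rfl
          exact hfE hh
        show W C (insert f E) (Function.update χ f ψ) = _
        unfold W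
        rw [a2]
        ring
      rw [Finset.sum_congr rfl (fun ψ _ => e1 ψ), ← Finset.mul_sum]
      rw [row_step C Finset.univ E ∅ (Finset.empty_subset _) (Finset.subset_univ _) χ f
          hfE (Finset.mem_univ _) (fun ψ => conj (C.ev ψ f))
          0 (Fintype.card X) 0 ?_ 0 (fun y hy => absurd rfl hy) ?_]
      · unfold W; ring
      · intro x
        rw [C.orth]
        simp
      · intro x _
        simp
    rw [Finset.sum_congr rfl (fun χ _ => h2 χ), ← Finset.mul_sum] at h1
    exact (mul_left_cancel₀ hX h1).symm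

/-- linear independence in the form needed -/
theorem indep {F : Finset P} {χ : P → X} (h : D C F χ ≠ 0) (a : P → ℂ)
    (ha : ∀ y, a y ≠ 0 → y ∈ F) (h0 : ∀ f ∈ F, ∑ y, a y * C.ev (χ y) f = 0) : a = 0 := by
  classical
  by_contra hne
  apply h
  let b : P → ℂ := fun x => if x ∈ F then 0 else - ∑ y, a y * C.ev (χ y) x
  apply Matrix.exists_vecMul_eq_zero_iff.mp
  refine ⟨a + b, ?_, ?_⟩
  · intro h1
    apply hne
    funext y
    by_cases hy : y ∈ F
    · have h2 := congrFun h1 y
      simpa [b, hy] using h2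
    · by_contra h3
      exact hy (ha y h3)
  · funext x
    rw [Matrix.vecMul, dotProduct]
    have e1 : ∀ k, (a + b) k * M C F χ k x = a k * C.ev (χ k) x + (if k = x then b k else 0) := by
      intro k
      have ea : a k * M C F χ k x = a k * C.ev (χ k) x := by
        by_cases hk : a k = 0
        · rw [hk, zero_mul, zero_mul]
        · rw [M_mem C _ (ha k hk)]
      have eb : b k * M C F χ k x = if k = x then b k else 0 := by
        by_cases hk : k ∈ F
        · have : b k = 0 := by simp [b, hk]
          rw [this, zero_mul]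
          simp
        · rw [M_notMem C _ hk, Pi.single_apply]
          by_cases hkx : x = k
          · subst hkx; simp
          · rw [if_neg hkx, if_neg (fun h => hkx h.symm), mul_zero]
      rw [Pi.add_apply, add_mul, ea, eb]
    show ∑ k, (a + b) k * M C F χ k x = 0
    rw [Finset.sum_congr rfl (fun k _ => e1 k), Finset.sum_add_distrib]
    have e3 : ∑ k, (if k = x then b k else 0) = b x := by simp
    rw [e3]
    by_cases hx : x ∈ F
    · rw [h0 x hx]
      simp [b, hx]
    · simp [b, hx]

/-- solvability -/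
theorem solve {F : Finset P} {χ : P → X} (h : D C F χ ≠ 0) (v : P → ℂ) :
    ∃ a : P → ℂ, (∀ y, a y ≠ 0 → y ∈ F) ∧ ∀ f ∈ F, ∑ y, a y * C.ev (χ y) f = v f := by
  classical
  have hu : IsUnit (M C F χ) := by
    rw [Matrix.isUnit_iff_isUnit_det]
    exact isUnit_iff_ne_zero.mpr h
  -- solve on `F`, with the coordinates outside `F` chosen arbitrarily
  let w : P → ℂ := v
  obtain ⟨c, hc⟩ : ∃ c : P → ℂ, Matrix.vecMul c (M C F χ) = w := by
    refine ⟨Matrix.vecMul w (M C F χ)⁻¹, ?_⟩
    rw [Matrix.vecMul_vecMul, Matrix.nonsing_inv_mul _ ((Matrix.isUnit_iff_isUnit_det _).mp hu),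
      Matrix.vecMul_one]
  refine ⟨fun y => if y ∈ F then c y else 0, ?_, ?_⟩
  · intro y hy
    by_contra h
    exact hy (by simp [h])
  · intro f hf
    have h1 := congrFun hc f
    rw [Matrix.vecMul, dotProduct] at h1
    change ∑ k, c k * M C F χ k f = v f at h1
    rw [← h1]
    refine Finset.sum_congr rfl fun k _ => ?_
    by_cases hk : k ∈ F
    · simp only [hk, if_true]
      rw [M_mem C _ hk]
    · simp only [hk, if_false, zero_mul]
      have hfk : ¬ f = k := by
        rintro rfl
        exact hk hf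
      rw [M_notMem C _ hk, Pi.single_apply, if_neg hfk, mul_zero]

/-- closure under joins -/
theorem T_sup {Q Q' : Subgroup P} {F : Finset P} {χ : P → X} (h : D C F χ ≠ 0)
    (h1 : T C Q F F χ) (h2 : T C Q' F F χ) : T C (Q ⊔ Q') F F χ := by
  intro v hv
  obtain ⟨a, ha1, ha2⟩ := h1 v (fun q hq x => hv q (Subgroup.mem_sup_left hq) x)
  obtain ⟨b, hb1, hb2⟩ := h2 v (fun q hq x => hv q (Subgroup.mem_sup_right hq) x)
  have hab : a - b = 0 := by
    apply indep C h
    · intro y hy
      by_cases hay : a y = 0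
      · apply (hb1 y _).1
        intro hby
        apply hy
        simp [hay, hby]
      · exact (ha1 y hay).1
    · intro f hf
      simp only [Pi.sub_apply, sub_mul, Finset.sum_sub_distrib]
      rw [ha2 f hf, hb2 f hf, sub_self]
  have hab' : a = b := sub_eq_zero.mp hab
  refine ⟨a, ?_, ha2⟩
  intro y hy
  refine ⟨(ha1 y hy).1, ?_⟩
  have k1 := (ha1 y hy).2
  have k2 := (hb1 y (hab' ▸ hy)).2
  intro q hq
  rw [Subgroup.mem_sup] at hq
  obtain ⟨s, hs, t, ht, rfl⟩ := hq
  rw [C.mul, k1 s hs, k2 t ht, one_mul]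

theorem T_bot {F : Finset P} {χ : P → X} (h : D C F χ ≠ 0) : T C ⊥ F F χ := by
  intro v _
  obtain ⟨a, ha1, ha2⟩ := solve C h v
  refine ⟨a, fun y hy => ⟨ha1 y hy, ?_⟩, ha2⟩
  intro q hq
  rw [Subgroup.mem_bot] at hq
  rw [hq]
  exact C.one _

/-- `Q` is the largest element -/
def Top (Q : Subgroup P) (F Y : Finset P) (χ : P → X) : Prop :=
  T C Q F Y χ ∧ ∀ Q', Q ≤ Q' → T C Q' F Y χ → Q' = Q

theorem exists_top {F : Finset P} {χ : P → X} (h : D C F χ ≠ 0) :
    ∃ Q0 : Subgroup P, ∀ Q, Top C Q F F χ ↔ Q = Q0 := by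
  classical
  let S : Finset (Subgroup P) := Finset.univ.filter (fun Q => T C Q F F χ)
  have hS : T C (S.sup id) F F χ := by
    refine Finset.sup_induction (p := fun Q : Subgroup P => T C Q F F χ) (T_bot C h) ?_ ?_
    · intro Q hQ Q' hQ'
      exact T_sup C h hQ hQ'
    · intro Q hQ
      simpa [S] using hQ
  have hle : ∀ Q, T C Q F F χ → Q ≤ S.sup id := by
    intro Q hQ
    exact Finset.le_sup (f := id) (by simpa [S] using hQ)
  refine ⟨S.sup id, fun Q => ⟨?_, ?_⟩⟩
  · rintro ⟨h1, h2⟩
    exact (h2 _ (hle Q h1) hS).symm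
  · rintro rfl
    exact ⟨hS, fun Q' h1 h2 => le_antisymm (hle Q' h2) h1⟩

end

end Pool.Agent.Helper89.Cyl
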