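import Pool.Agent.Helper89.Cyl.Part2

/-!
# Fractional interval partition, part 3: the identity
-/

set_option autoImplicit false
set_option linter.unusedSectionVars false

open scoped BigOperators ComplexConjugate

namespace Pool.Agent.Helper89.Cyl

noncomputable section

variable {P X : Type*} [CommGroup P] [Fintype P] [DecidableEq P] [Fintype X]
  (C : CharSys P X)

theorem T_congr {Q : Subgroup P} {F Y : Finset P} {χ χ' : P → X} (h : ∀ y ∈ Y, χ y = χ' y)
    (hT : T C Q F Y χ) : T C Q F Y χ' := by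
  intro v hv
  obtain ⟨a, ha1, ha2⟩ := hT v hv
  refine ⟨a, ?_, ?_⟩
  · intro y hy
    obtain ⟨h1, h2⟩ := ha1 y hy
    exact ⟨h1, (h y h1) ▸ h2⟩
  · intro f hf
    rw [← ha2 f hf]
    refine Finset.sum_congr rfl fun y _ => ?_
    by_cases hy : a y = 0
    · rw [hy, zero_mul, zero_mul]
    · rw [h y (ha1 y hy).1]

theorem Top_congr {Q : Subgroup P} {F Y : Finset P} {χ χ' : P → X} (h : ∀ y ∈ Y, χ y = χ' y) :
    Top C Q F Y χ ↔ Top C Q F Y χ' := by
  have h' : ∀ y ∈ Y, χ' y = χ y := fun y hy => (h y hy).symm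
  constructor
  · rintro ⟨h1, h2⟩
    exact ⟨T_congr C h h1, fun Q' hQ hT => h2 Q' hQ (T_congr C h' hT)⟩
  · rintro ⟨h1, h2⟩
    exact ⟨T_congr C h' h1, fun Q' hQ hT => h2 Q' hQ (T_congr C h hT)⟩

/-- change of the index set -/
theorem T_index {Q : Subgroup P} {F Y Y' : Finset P} {χ : P → X}
    (h : ∀ y ∈ Y, Ann C Q (χ y) → y ∈ Y') (hT : T C Q F Y χ) : T C Q F Y' χ := by
  intro v hv
  obtain ⟨a, ha1, ha2⟩ := hT v hv
  exact ⟨a, fun y hy => ⟨h y (ha1 y hy).1 (ha1 y hy).2, (ha1 y hy).2⟩, ha2⟩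

theorem Ann_mono {Q Q' : Subgroup P} (h : Q ≤ Q') {ψ : X} (hψ : Ann C Q' ψ) : Ann C Q ψ :=
  fun q hq => hψ q (h hq)

theorem Top_index {Q : Subgroup P} {F Y : Finset P} {χ : P → X} (hYF : Y ⊆ F)
    (hY : ∀ y ∈ F, Ann C Q (χ y) → y ∈ Y) : Top C Q F Y χ ↔ Top C Q F F χ := by
  constructor
  · rintro ⟨h1, h2⟩
    refine ⟨T_index C (fun y hy _ => hYF hy) h1, fun Q' hQ hT => h2 Q' hQ ?_⟩
    exact T_index C (fun y hy ha => hY y hy (Ann_mono C hQ ha)) hT
  · rintro ⟨h1, h2⟩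
    refine ⟨T_index C hY h1, fun Q' hQ hT => h2 Q' hQ ?_⟩
    exact T_index C (fun y hy _ => hYF hy) hT

/-- `F ⊆ Q Y` -/
def Hull (Q : Subgroup P) (F Y : Finset P) : Prop := ∀ x ∈ F, ∃ q ∈ Q, ∃ y ∈ Y, x = q * y

/-- change of the domain -/
theorem T_dom {Q Q' : Subgroup P} (hQ : Q ≤ Q') {F Y : Finset P} {χ : P → X} (hYF : Y ⊆ F)
    (hF : Hull Q F Y) : T C Q' F Y χ ↔ T C Q' Y Y χ := by
  constructor
  · intro h v hv
    obtain ⟨a, ha1, ha2⟩ := h v hv
    exact ⟨a, ha1, fun f hf => ha2 f (hYF hf)⟩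
  · intro h v hv
    obtain ⟨a, ha1, ha2⟩ := h v hv
    refine ⟨a, ha1, fun f hf => ?_⟩
    obtain ⟨q, hq, y, hy, rfl⟩ := hF f hf
    rw [hv q (hQ hq), ← ha2 y hy]
    refine Finset.sum_congr rfl fun z _ => ?_
    by_cases hz : a z = 0
    · rw [hz, zero_mul, zero_mul]
    · rw [C.mul, (ha1 z hz).2 q (hQ hq), one_mul]

theorem Top_dom {Q : Subgroup P} {F Y : Finset P} {χ : P → X} (hYF : Y ⊆ F)
    (hF : Hull Q F Y) : Top C Q F Y χ ↔ Top C Q Y Y χ := by
  unfold Top
  rw [T_dom C le_rfl hYF hF]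
  constructor
  · rintro ⟨h1, h2⟩
    exact ⟨h1, fun Q' hQ hT => h2 Q' hQ ((T_dom C hQ hYF hF).mpr hT)⟩
  · rintro ⟨h1, h2⟩
    exact ⟨h1, fun Q' hQ hT => h2 Q' hQ ((T_dom C hQ hYF hF).mp hT)⟩

/-- if the determinant of `Y` does not vanish then `F ⊆ Q Y` -/
theorem hull_of_T {Q : Subgroup P} {F Y : Finset P} {χ : P → X} (hYF : Y ⊆ F)
    (hT : T C Q F Y χ) (hD : D C Y χ ≠ 0) : Hull Q F Y := by
  classical
  intro x hx
  by_contra hcon
  push Not at hcon
  obtain ⟨a, ha1, ha2⟩ := hT (coset Q x) (coset_inv Q x)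
  have h0 : a = 0 := by
    apply indep C hD a (fun y hy => (ha1 y hy).1)
    intro f hf
    rw [ha2 f (hYF hf)]
    unfold coset
    rw [if_neg]
    rintro ⟨q, hq, rfl⟩
    exact hcon q⁻¹ (Q.inv_mem hq) _ hf (by rw [inv_mul_cancel_left])
  have h1 := ha2 x hx
  rw [h0] at h1
  have h2 : coset Q x x = 1 := by
    unfold coset
    rw [if_pos ⟨1, Q.one_mem, by rw [one_mul]⟩]
  rw [h2] at h1
  simp at h1

open Classical in
/-- the coefficients, complex form -/
def cc (Q : Subgroup P) (Y : Finset P) : ℂ :=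
  ∑ χ : P → X, if (∀ y ∈ Y, Ann C Q (χ y)) ∧ Top C Q Y Y χ then W C Y χ else 0

open Classical in
theorem main_identity (hX : (Fintype.card X : ℂ) ≠ 0) (F : Finset P) :
    ∑ Q : Subgroup P, ∑ Y ∈ F.powerset with Hull Q F Y, cc C Q Y = Fintype.card (P → X) := by
  rw [← total C hX F]
  -- partition of unity
  have h1 : ∀ χ : P → X, W C F χ = ∑ Q : Subgroup P, ∑ Y ∈ F.powerset,
      if Y = F.filter (fun f => Ann C Q (χ f)) ∧ Top C Q F Y χ then W C F χ else 0 := by
    intro χ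
    by_cases hW : W C F χ = 0
    · rw [hW]
      simp
    have hD : D C F χ ≠ 0 := by
      intro h
      apply hW
      unfold W
      rw [h, zero_mul]
    obtain ⟨Q0, hQ0⟩ := exists_top C hD
    have h2 : ∀ Q : Subgroup P, (∑ Y ∈ F.powerset,
      if Y = F.filter (fun f => Ann C Q (χ f)) ∧ Top C Q F Y χ then W C F χ else 0)
        = if Q = Q0 then W C F χ else 0 := by
      intro Q
      rw [Finset.sum_eq_single (F.filter (fun f => Ann C Q (χ f)))]
      · have h3 : Top C Q F (F.filter (fun f => Ann C Q (χ f))) χ ↔ Q = Q0 := by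
          rw [Top_index C (Finset.filter_subset _ _)
            (fun y hy ha => Finset.mem_filter.mpr ⟨hy, ha⟩)]
          exact hQ0 Q
        simp only [h3, true_and]
      · intro Y _ hY
        rw [if_neg]
        rintro ⟨h, _⟩
        exact hY h
      · intro h
        exact absurd (Finset.mem_powerset.mpr (Finset.filter_subset _ _)) h
    rw [Finset.sum_congr rfl (fun Q _ => h2 Q)]
    simp
  rw [Finset.sum_congr rfl (fun χ _ => h1 χ), Finset.sum_comm]
  refine Finset.sum_congr rfl fun Q _ => ?_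
  rw [Finset.sum_comm, Finset.sum_filter]
  refine Finset.sum_congr rfl fun Y hY => ?_
  rw [Finset.mem_powerset] at hY
  let K : (P → X) → ℂ := fun χ =>
    if (∀ y ∈ Y, Ann C Q (χ y)) ∧ Top C Q F Y χ then ∏ y ∈ Y, conj (C.ev (χ y) y) else 0
  have hK1 : ∀ χ χ' : P → X, (∀ y ∈ Y, χ y = χ' y) → K χ = K χ' := by
    intro χ χ' h
    have e1 : (∀ y ∈ Y, Ann C Q (χ y)) ↔ ∀ y ∈ Y, Ann C Q (χ' y) := by
      constructor
      · intro h' y hy
        rw [← h y hy]
        exact h' y hy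
      · intro h' y hy
        rw [h y hy]
        exact h' y hy
    have e2 := Top_congr C (Q := Q) (F := F) h
    have e3 : ∏ y ∈ Y, conj (C.ev (χ y) y) = ∏ y ∈ Y, conj (C.ev (χ' y) y) :=
      Finset.prod_congr rfl fun y hy => by rw [h y hy]
    show (if (∀ y ∈ Y, Ann C Q (χ y)) ∧ Top C Q F Y χ then ∏ y ∈ Y, conj (C.ev (χ y) y) else 0)
      = if (∀ y ∈ Y, Ann C Q (χ' y)) ∧ Top C Q F Y χ' then ∏ y ∈ Y, conj (C.ev (χ' y) y) else 0
    rw [e3]
    simp only [e1, e2]
  have hK2 : ∀ χ, K χ ≠ 0 → (∀ y ∈ Y, Ann C Q (χ y)) ∧ Top C Q F Y χ := by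
    intro χ h
    by_contra hcon
    exact h (if_neg hcon)
  have hint := integ C Q F Y hY K hK1 (fun χ h => (hK2 χ h).2.1) hX (F \ Y)
    Finset.sdiff_disjoint Finset.sdiff_subset
  rw [Finset.union_sdiff_of_subset hY] at hint
  have h3 : ∀ χ : P → X, (if Y = F.filter (fun f => Ann C Q (χ f)) ∧ Top C Q F Y χ
      then W C F χ else 0) = K χ * (∏ f ∈ F \ Y, gw C Q f (χ f)) * D C F χ := by
    intro χ
    by_cases hex : ∃ f ∈ F \ Y, Ann C Q (χ f)
    · obtain ⟨f, hf, hfa⟩ := hex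
      have e1 : ∏ f ∈ F \ Y, gw C Q f (χ f) = 0 := by
        apply Finset.prod_eq_zero hf
        unfold gw
        rw [if_pos hfa]
      rw [e1, mul_zero, zero_mul, if_neg]
      rintro ⟨h, _⟩
      rw [Finset.mem_sdiff] at hf
      apply hf.2
      rw [h, Finset.mem_filter]
      exact ⟨hf.1, hfa⟩
    · push Not at hex
      have e1 : ∏ f ∈ F \ Y, gw C Q f (χ f) = ∏ f ∈ F \ Y, conj (C.ev (χ f) f) := by
        refine Finset.prod_congr rfl fun f hf => ?_
        unfold gw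
        rw [if_neg (hex f hf)]
      have e2 : Y = F.filter (fun f => Ann C Q (χ f)) ↔ ∀ y ∈ Y, Ann C Q (χ y) := by
        constructor
        · intro h y hy
          rw [h, Finset.mem_filter] at hy
          exact hy.2
        · intro h
          ext y
          rw [Finset.mem_filter]
          constructor
          · intro hy
            exact ⟨hY hy, h y hy⟩
          · rintro ⟨h1, h2⟩
            by_contra hy
            exact hex y (Finset.mem_sdiff.mpr ⟨h1, hy⟩) h2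
      rw [e1]
      simp only [e2]
      show (if (∀ y ∈ Y, Ann C Q (χ y)) ∧ Top C Q F Y χ then W C F χ else 0)
        = (if (∀ y ∈ Y, Ann C Q (χ y)) ∧ Top C Q F Y χ then ∏ y ∈ Y, conj (C.ev (χ y) y) else 0)
          * (∏ f ∈ F \ Y, conj (C.ev (χ f) f)) * D C F χ
      split_ifs
      · unfold W
        rw [← Finset.prod_sdiff hY]
        ring
      · ring
  rw [Finset.sum_congr rfl (fun χ _ => h3 χ), hint]
  by_cases hH : Hull Q F Y
  · rw [if_pos hH]
    unfold cc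
    refine Finset.sum_congr rfl fun χ _ => ?_
    show (if (∀ y ∈ Y, Ann C Q (χ y)) ∧ Top C Q Y Y χ then W C Y χ else 0)
      = (if (∀ y ∈ Y, Ann C Q (χ y)) ∧ Top C Q F Y χ then ∏ y ∈ Y, conj (C.ev (χ y) y) else 0)
        * D C Y χ
    simp only [Top_dom C hY hH]
    split_ifs
    · unfold W; ring
    · ring
  · rw [if_neg hH]
    symm
    apply Finset.sum_eq_zero
    intro χ _
    by_contra hne
    rw [mul_eq_zero, not_or] at hne
    exact hH (hull_of_T C hY (hK2 χ hne.1).2.1 hne.2)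

end

end Pool.Agent.Helper89.Cyl
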